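import Pool.Agent.Y691.TU.Gd

/-!
# The conjecture of Gross and Deligne and cubic hypersurfaces
-/

set_option autoImplicit false

open CategoryTheory CategoryTheory.Limits AlgebraicGeometry Pool.Agent.Y116.UV
  Pool.Agent.Y101.Th Pool.Agent.Y691.TU

namespace Pool.Agent.Results.MP_b23d8d_ag.CubicHypersurfaces

universe v u

/-- **The conjecture of Gross and Deligne and cubic hypersurfaces.** Let `k` be the field of algebraic
numbers, `C` the category of the pure rational Hodge structures with a de Rham structure over `k` and
a compatible polarisation, `D` the graded pieces `gr^W_w H^j_c(X)` as objects of `C`, and `HasCM` the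
complex multiplications of the objects of `C` by abelian fields with their Hodge types and periods,
with their known properties; `curves` is the known case of curves (Anderson). The conjecture of Gross
and Deligne is true for all simple direct summands, and their Tate twists, of the pieces of the smooth
affine cubic hypersurfaces `t(x, y, z) = 1` for all trilinear forms `t` over `k` with a block of at
most three variables. For each `n` it is true for all simple direct summands, and their twists, of
the cohomology of the smooth projective schemes of dimension at most `n` if and only if this is true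
for the `t` with a block of at most `n + 2` variables; and for all simple summands of the cohomology
of all smooth projective schemes if and only if for all `t`. -/
theorem result {k : Type} [Field k] [CharZero k] [IsAlgClosed k] [Algebra.IsAlgebraic ℚ k]
    {C : Type u} [Category.{v} C] [Abelian C] {D : Graded k C} [D.L.IsEquivalence]
    {HasCM : CMData C} (hk : Resolution k) (hC : Semisimple C) (hD : IsGraded D)
    (hCM : ∀ A B : C, Nonempty (A ≅ B) → ∀ d p P, HasCM B d p P → HasCM A d p P)
    (curves : ∀ X : Sch k, SmProj X → topologicalKrullDim X.left ≤ 1 → ∀ i,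
      Every D.L (GDSimple HasCM) (D.H X i i)) :
    (∀ (a b c : ℕ) (t : Fin a → Fin b → Fin c → k), (a ≤ 3 ∨ b ≤ 3 ∨ c ≤ 3) → ∀ w j,
      Every D.L (GDSimple HasCM) (D.H (hypS t) w j)) ∧
    (∀ n : ℕ,
      (∀ X : Sch k, SmProj X → topologicalKrullDim X.left ≤ n → ∀ i,
          Every D.L (GDSimple HasCM) (D.H X i i)) ↔
        ∀ (a b c : ℕ) (t : Fin a → Fin b → Fin c → k), (a ≤ n + 2 ∨ b ≤ n + 2 ∨ c ≤ n + 2) →
          ∀ w j, Every D.L (GDSimple HasCM) (D.H (hypS t) w j)) ∧
    ((∀ X : Sch k, SmProj X → ∀ i, Every D.L (GDSimple HasCM) (D.H X i i)) ↔
      ∀ (a b c : ℕ) (t : Fin a → Fin b → Fin c → k) (w j : ℤ),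
        Every D.L (GDSimple HasCM) (D.H (hypS t) w j)) := by
  have hR := additive_gd hCM
  have h1 : Every D.L (GDSimple HasCM) D.one := every_unit hk hD fun X hX hd i =>
    curves X hX (hd.trans zero_le_one) i
  exact ⟨(every_dim hk hC hD hR h1 1).mp (by exact_mod_cast curves),
    every_dim hk hC hD hR h1, cubic_all hk hC hD (stable_every hC hR h1)⟩

end Pool.Agent.Results.MP_b23d8d_ag.CubicHypersurfaces
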