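import Pool.Agent.Y456.LG.Simp
import Pool.Agent.Y691.TU.Gd

/-!
# The conjecture of Gross and Deligne and sparse linear sections of `GL_m`

Let `k` be the field of algebraic numbers. A sparse linear section of `GL_m` over `k` is the scheme `U_M`
(`secGL M`) of the points `x` of the affine space `𝔸^d` such that the matrix `M(x)` is invertible, where `M`
is a square matrix each of whose entries is a constant or one of the `d` variables, in which each variable
occurs, with at most three nonzero entries in every row and in every column (`IsPat Set.univ M`, `Thin M`),
and with `det M ≠ 0` (`Good Set.univ M`). It is open in the affine space and closed in `GL_m`.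

`C` is the tensor category of the direct summands of the twists of the cohomology of the smooth projective
varieties over `k`, as pure rational Hodge structures with a de Rham structure over `k`; it is given, with
the pieces `gr^W_w H^j_c(X)`, by its known properties (`Semisimple`, `IsGraded`, `IsTensor`). The complex
multiplications of its objects, with the Hodge types and the periods, are the data `HasCM`.

1. For every simple object `N` of `C` there are ONE sparse linear section `U_M` and `w`, `j` such that a Tate
   twist of `N` is a direct summand of `gr^W_w H^j_c(U_M)`.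
2. The conjecture of Gross and Deligne is true for all simple objects if and only if, for all sparse linear
   sections `U_M`, it is true for the simple direct summands, and their Tate twists, of the pieces
   `gr^W_w H^j_c(U_M)`.
3. For each `n` it is true for the simple direct summands, and their twists, of the cohomology of the smooth
   projective schemes of dimension at most `n` if and only if this is true for the pieces of the sparse
   linear sections of `GL_m`, all `m`, of dimension `n + 1`.
4. It is true for the pieces of all linear sections of `GL_m` of dimension two (given by any square matrix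
   of polynomials in two variables; `curves` is the known case of curves).
-/

set_option autoImplicit false

open CategoryTheory CategoryTheory.Limits MonoidalCategory AlgebraicGeometry MvPolynomial
  Pool.Agent.Y116.UV Pool.Agent.Y101.Th Pool.Agent.Y691.TU Pool.Agent.Z125.UN Pool.Agent.Y456.LG

namespace Pool.Agent.Results.MP_b23d8d_ag.OneLinearSection

universe v u

/-- The conjecture of Gross and Deligne is a question about the simple summands of the cohomology of the
sparse linear sections of `GL_m`. -/
theorem result {k : Type} [Field k] [CharZero k] [IsAlgClosed k] [Algebra.IsAlgebraic ℚ k]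
    {C : Type u} [Category.{v} C] [Abelian C] [HasFiniteBiproducts C] [MonoidalCategory C]
    [MonoidalPreadditive C] [BraidedCategory C] {D : Graded k C} [D.L.IsEquivalence] {T : C}
    {HasCM : CMData C} (hk : Resolution k) (hC : Semisimple C) (hD : IsGraded D)
    (hT : IsTensor D T)
    (hCM : ∀ A B : C, Nonempty (A ≅ B) → ∀ d p P, HasCM B d p P → HasCM A d p P)
    (curves : ∀ X : Sch k, SmProj X → topologicalKrullDim X.left ≤ 1 → ∀ i,
      Every D.L (GDSimple HasCM) (D.H X i i)) :
    (∀ N : C, Simple N → ∃ (n d m : ℕ) (M : Matrix (Fin m) (Fin m) (MvPolynomial (Fin d) k))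
        (w j : ℤ) (s : Pool.Agent.Y691.TU.tw D.L n N ⟶ D.H (secGL M) w j)
        (r : D.H (secGL M) w j ⟶ Pool.Agent.Y691.TU.tw D.L n N),
        Good Set.univ M ∧ s ≫ r = 𝟙 _) ∧
    ((∀ N : C, Simple N → GrossDeligne HasCM N) ↔
      ∀ (d m : ℕ) (M : Matrix (Fin m) (Fin m) (MvPolynomial (Fin d) k)), Good Set.univ M →
        ∀ w j : ℤ, Every D.L (GDSimple HasCM) (D.H (secGL M) w j)) ∧
    (∀ n : ℕ,
      (∀ X : Sch k, SmProj X → topologicalKrullDim X.left ≤ n → ∀ i,
          Every D.L (GDSimple HasCM) (D.H X i i)) ↔
        ∀ (m : ℕ) (M : Matrix (Fin m) (Fin m) (MvPolynomial (Fin (n + 1)) k)),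
          IsPat Set.univ M → Thin M → ∀ w j : ℤ,
            Every D.L (GDSimple HasCM) (D.H (secGL M) w j)) ∧
    ∀ (m : ℕ) (M : Matrix (Fin m) (Fin m) (MvPolynomial (Fin 2) k)) (w j : ℤ),
      Every D.L (GDSimple HasCM) (D.H (secGL M) w j) := by
  have hS : Enough (Set.univ : Set k) := enough_univ
  have hR := additive_gd hCM
  have h1 : Every D.L (GDSimple HasCM) D.one := every_unit hk hD fun X hX hd i =>
    curves X hX (hd.trans zero_le_one) i
  refine ⟨fun N hN => ?_, simple_all hS hC hD hT, every_dim_sec hS hk hC hD hR h1, fun m M w j =>
    every_sec hk hC hD hR h1 1 (by exact_mod_cast curves) M w j⟩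
  obtain ⟨n, d, m, M, w, j, h2, s, r, h3⟩ := simple_piece hS hC hD hT N hN
  exact ⟨n, d, m, M, w, j, s, r, h2, h3⟩

end Pool.Agent.Results.MP_b23d8d_ag.OneLinearSection
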